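import Pool.Agent.N912.ED.W699EGLsvD
import Pool.Agent.N912.ED.Swc
import Pool.Agent.N912.ED.W150EGLS4

/-!
Pairs of primes in residue classes, on average, for all primes of `(Q, 2Q]` (port of
`W699.EG.LsvB`, `LsvC`, `LsvD` by helper699 to all primes; the only exceptional character is the
principal one).
-/

set_option autoImplicit false

namespace Pool.Agent.N296.EM

open Finset
open Pool.Agent.N912.ED (part1u part2)
open Pool.Agent.N912.ED.W78EG (th S_LS4)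
open Pool.Agent.N912.ED.W699EG

variable {e : ℕ} {κ : DirichletCharacter ℂ e}

open scoped Classical in
/-- the characters other than the principal one -/
noncomputable def Oth (D : ℕ) : Finset (DirichletCharacter ℂ D) :=
  univ.filter (fun χ => χ ≠ 1)

theorem mem_Oth {D : ℕ} {χ : DirichletCharacter ℂ D} : χ ∈ Oth D ↔ χ ≠ 1 := by
  classical
  unfold Oth
  rw [mem_filter]
  exact ⟨fun h => h.2, fun h => ⟨mem_univ _, h⟩⟩

theorem sum_split {D : ℕ} (F : DirichletCharacter ℂ D → ℂ) :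
    ∑ χ : DirichletCharacter ℂ D, F χ = F 1 + ∑ χ ∈ Oth D, F χ := by
  classical
  unfold Oth
  rw [← add_sum_erase univ F (mem_univ 1)]
  congr 1
  refine sum_congr ?_ fun _ _ => rfl
  ext χ
  simp

theorem SS_one {Q t D : ℕ} : SS κ Q t (1 : DirichletCharacter ℂ D) = (TD κ Q t D : ℂ) := by
  unfold SS TD
  rw [Complex.ofReal_sum]
  refine sum_congr rfl fun m _ => ?_
  by_cases hm : m.Coprime D
  · rw [if_pos hm, MulChar.one_apply ((ZMod.isUnit_iff_coprime m D).mpr hm), mul_one]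
  · rw [if_neg hm, MulChar.map_nonunit (1 : DirichletCharacter ℂ D)
      (fun hu => hm ((ZMod.isUnit_iff_coprime m D).mp hu)), mul_zero, Complex.ofReal_zero]

/-- the contribution of the principal character -/
theorem Ex_one {Q t u D c : ℕ} [NeZero D] (hc : c.Coprime D) :
    (1 : DirichletCharacter ℂ D) (c : ZMod D) *
      (SS κ Q t (1 : DirichletCharacter ℂ D) * SS κ Q u (1 : DirichletCharacter ℂ D)⁻¹) =
      ((TD κ Q t D * TD κ Q u D : ℝ) : ℂ) := by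
  have hcu : IsUnit (c : ZMod D) := (ZMod.isUnit_iff_coprime c D).mpr hc
  rw [MulChar.one_apply hcu, inv_one, SS_one, SS_one, one_mul]
  push_cast
  rfl

open scoped Classical in
/-- sums over primitive characters -/
noncomputable def PS (f : ℕ) (g : DirichletCharacter ℂ f → ℝ) : ℝ :=
  ∑ ψ ∈ (univ : Finset (DirichletCharacter ℂ f)).filter (fun χ => χ.IsPrimitive), g ψ

theorem PS_mul (f : ℕ) (g : DirichletCharacter ℂ f → ℝ) (c : ℝ) :
    PS f (fun ψ => c * g ψ) = c * PS f g := by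
  unfold PS
  rw [mul_sum]

theorem PS_nonneg (f : ℕ) (g : DirichletCharacter ℂ f → ℝ) (h : ∀ ψ, 0 ≤ g ψ) : 0 ≤ PS f g :=
  sum_nonneg fun ψ _ => h ψ

open scoped Classical in
/-- sums over non-exceptional characters and primitive characters -/
theorem prim_sum (D : ℕ) [NeZero D] (w : DirichletCharacter ℂ D → ℝ) (hw : ∀ χ, 0 ≤ w χ)
    (W : (f : ℕ) → DirichletCharacter ℂ f → ℝ)
    (hW : ∀ f (h : f ∣ D) (ψ : DirichletCharacter ℂ f),
      w (DirichletCharacter.changeLevel h ψ) ≤ W f ψ) :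
    ∑ χ ∈ Oth D, w χ ≤
      ∑ f ∈ D.divisors.filter (fun f => f ≠ 1), PS f (W f) := by
  have h1 : ∀ χ ∈ Oth D,
      χ.conductor ∈ D.divisors.filter (fun f => f ≠ 1) := by
    intro χ hχ
    rw [mem_Oth] at hχ
    rw [mem_filter]
    refine ⟨Nat.mem_divisors.mpr ⟨χ.conductor_dvd_level, NeZero.ne D⟩, ?_⟩
    intro h
    exact hχ (DirichletCharacter.eq_one_iff_conductor_eq_one.mpr h)
  rw [← sum_fiberwise_of_maps_to h1]
  apply sum_le_sum
  intro f hf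
  unfold PS
  rw [mem_filter, Nat.mem_divisors] at hf
  have hfm := hf.1.1
  have h2 : ((Oth D).filter
      (fun χ => χ.conductor = f)) ⊆
      ((univ : Finset (DirichletCharacter ℂ f)).filter (fun χ => χ.IsPrimitive)).image
        (DirichletCharacter.changeLevel hfm) := by
    intro χ hχ
    rw [mem_filter] at hχ
    obtain ⟨hO, hc⟩ := hχ
    subst hc
    rw [mem_image]
    refine ⟨χ.primitiveCharacter, ?_, χ.changeLevel_primitiveCharacter⟩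
    rw [mem_filter]
    exact ⟨mem_univ _, χ.primitiveCharacter_isPrimitive⟩
  calc _ ≤ ∑ χ ∈ ((univ : Finset (DirichletCharacter ℂ f)).filter (fun χ => χ.IsPrimitive)).image
        (DirichletCharacter.changeLevel hfm), w χ :=
        sum_le_sum_of_subset_of_nonneg h2 fun χ _ _ => hw χ
    _ = ∑ ψ ∈ (univ : Finset (DirichletCharacter ℂ f)).filter (fun χ => χ.IsPrimitive),
        w (DirichletCharacter.changeLevel hfm ψ) := by
        rw [sum_image]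
        intro x _ y _ hxy
        exact DirichletCharacter.changeLevel_injective hfm hxy
    _ ≤ _ := sum_le_sum fun ψ _ => hW f hfm ψ

/-- sums over `D` and its divisors -/
theorem swap_sum (N : ℕ) (P : ℕ → ℝ) (hP : ∀ f, 0 ≤ P f) :
    ∑ D ∈ Icc 1 N, 1 / (Nat.totient D : ℝ) * ∑ f ∈ D.divisors.filter (fun f => f ≠ 1), P f ≤
      (∑ f ∈ (Icc 1 N).filter (fun f => f ≠ 1), 1 / (Nat.totient f : ℝ) * P f) *
        ∑ g ∈ Icc 1 N, 1 / (Nat.totient g : ℝ) := by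
  have h1 : ∑ D ∈ Icc 1 N, 1 / (Nat.totient D : ℝ) *
      ∑ f ∈ D.divisors.filter (fun f => f ≠ 1), P f =
      ∑ f ∈ (Icc 1 N).filter (fun f => f ≠ 1), ∑ D ∈ (Icc 1 N).filter (fun D => f ∣ D),
        1 / (Nat.totient D : ℝ) * P f := by
    simp_rw [mul_sum]
    refine sum_comm' fun D f => ?_
    simp only [mem_Icc, mem_filter, Nat.mem_divisors]
    constructor
    · rintro ⟨⟨h2, h3⟩, ⟨h4, h5⟩, h6⟩
      have h7 : f ≤ D := Nat.le_of_dvd (by omega) h4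
      have h8 : 0 < f := Nat.pos_of_dvd_of_pos h4 (by omega)
      exact ⟨⟨⟨h2, h3⟩, h4⟩, ⟨by omega, by omega⟩, h6⟩
    · rintro ⟨⟨⟨h2, h3⟩, h4⟩, ⟨h5, h5'⟩, h6⟩
      exact ⟨⟨h2, h3⟩, ⟨h4, by omega⟩, h6⟩
  rw [h1, sum_mul]
  refine sum_le_sum fun f hf => ?_
  rw [mem_filter, mem_Icc] at hf
  rw [← sum_mul]
  have htf : (0 : ℝ) < Nat.totient f := by exact_mod_cast Nat.totient_pos.2 (by omega)
  have h2 : ∑ D ∈ (Icc 1 N).filter (fun D => f ∣ D), 1 / (Nat.totient D : ℝ) ≤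
      1 / (Nat.totient f : ℝ) * ∑ g ∈ Icc 1 N, 1 / (Nat.totient g : ℝ) := by
    rw [mul_sum]
    have h3 : ∑ D ∈ (Icc 1 N).filter (fun D => f ∣ D), 1 / (Nat.totient D : ℝ) ≤
        ∑ D ∈ (Icc 1 N).filter (fun D => f ∣ D),
          1 / (Nat.totient f : ℝ) * (1 / (Nat.totient (D / f) : ℝ)) := by
      refine sum_le_sum fun D hD => ?_
      rw [mem_filter, mem_Icc] at hD
      obtain ⟨⟨h4, h5⟩, g, rfl⟩ := hD
      have hg : 0 < g := Nat.pos_of_ne_zero (by rintro rfl; simp at h4)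
      rw [Nat.mul_div_cancel_left g (by omega : 0 < f)]
      have htg : (0 : ℝ) < Nat.totient g := by exact_mod_cast Nat.totient_pos.2 hg
      rw [one_div_mul_one_div]
      apply one_div_le_one_div_of_le (by positivity)
      exact_mod_cast Nat.totient_super_multiplicative f g
    refine h3.trans ?_
    have hinj : Set.InjOn (fun D => D / f) ((Icc 1 N).filter (fun D => f ∣ D) : Finset ℕ) := by
      intro a ha b hb hab
      rw [mem_coe, mem_filter] at ha hb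
      simp only at hab
      rw [← Nat.div_mul_cancel ha.2, ← Nat.div_mul_cancel hb.2, hab]
    rw [← sum_image (f := fun g => 1 / (Nat.totient f : ℝ) * (1 / (Nat.totient g : ℝ))) hinj]
    apply sum_le_sum_of_subset_of_nonneg
    · intro g hg
      rw [mem_image] at hg
      obtain ⟨D, hD, rfl⟩ := hg
      rw [mem_filter, mem_Icc] at hD
      rw [mem_Icc]
      exact ⟨Nat.div_pos (Nat.le_of_dvd (by omega) hD.2) (by omega),
        (Nat.div_le_self _ _).trans hD.1.2⟩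
    · intro g _ _
      positivity
  calc (∑ D ∈ (Icc 1 N).filter (fun D => f ∣ D), 1 / (Nat.totient D : ℝ)) * P f ≤
      (1 / (Nat.totient f : ℝ) * ∑ g ∈ Icc 1 N, 1 / (Nat.totient g : ℝ)) * P f :=
        mul_le_mul_of_nonneg_right h2 (hP f)
    _ = _ := by ring

/-- fourth moment over the non-exceptional characters -/
noncomputable def a4 (κ : DirichletCharacter ℂ e) (Q t D : ℕ) : ℝ := ∑ χ ∈ Oth D, ‖SS κ Q t χ‖ ^ 4

theorem a4_nonneg (κ : DirichletCharacter ℂ e) (Q t D : ℕ) : 0 ≤ a4 κ Q t D := sum_nonneg fun _ _ => by positivity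

/-- the primitive characters -/
noncomputable def P4 (κ : DirichletCharacter ℂ e) (Q t f : ℕ) : ℝ :=
  PS f (fun ψ => ‖∑ m ∈ Ioc Q t, (th κ Q m : ℂ) * ψ (m : ZMod f)‖ ^ 4)

theorem P4_nonneg (κ : DirichletCharacter ℂ e) (Q t f : ℕ) : 0 ≤ P4 κ Q t f := PS_nonneg f _ fun _ => by positivity

theorem a4_le {Q D C₀ : ℕ} (hQ : 1 ≤ Q) (hC : C₀ ≤ Q) (hD : 1 ≤ D) (hDQ : D ≤ C₀ * Q) (t : ℕ) :
    a4 κ Q t D ≤ 8 * ∑ f ∈ D.divisors.filter (fun f => f ≠ 1), P4 κ Q t f +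
      8 * Real.log (2 * Q) ^ 4 * Nat.totient D := by
  have : NeZero D := ⟨by omega⟩
  set L := Real.log (2 * Q) with hL
  have hQ1 : (1 : ℝ) ≤ Q := by exact_mod_cast hQ
  have hL0 : 0 ≤ L := Real.log_nonneg (by linarith)
  have h1 := prim_sum D (fun χ => max 0 (‖SS κ Q t χ‖ ^ 4 - 8 * L ^ 4)) (fun χ => le_max_left _ _)
    (fun f ψ => 8 * ‖∑ m ∈ Ioc Q t, (th κ Q m : ℂ) * ψ (m : ZMod f)‖ ^ 4) (by
      intro f h ψ
      apply max_le (by positivity)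
      have h2 := SS_changeLevel κ hQ hC hD hDQ t h ψ
      have h3 : ‖SS κ Q t (DirichletCharacter.changeLevel h ψ)‖ ^ 4 ≤ (‖SS κ Q t ψ‖ + L) ^ 4 :=
        pow_le_pow_left₀ (norm_nonneg _) h2 4
      have h4 := add_pow_le (norm_nonneg (SS κ Q t ψ)) hL0 4
      norm_num at h4
      have h5 : SS κ Q t ψ = ∑ m ∈ Ioc Q t, (th κ Q m : ℂ) * ψ (m : ZMod f) := rfl
      rw [← h5]
      linarith)
  have h6 : a4 κ Q t D ≤ ∑ χ ∈ Oth D, (max 0 (‖SS κ Q t χ‖ ^ 4 - 8 * L ^ 4) + 8 * L ^ 4) := by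
    unfold a4
    refine sum_le_sum fun χ _ => ?_
    have := le_max_right 0 (‖SS κ Q t χ‖ ^ 4 - 8 * L ^ 4)
    linarith
  rw [sum_add_distrib, sum_const, nsmul_eq_mul] at h6
  have h7 := Pool.Agent.W333.EC.card_char D (Oth D)
  have h8 : ((Oth D).card : ℝ) * (8 * L ^ 4) ≤ Nat.totient D * (8 * L ^ 4) :=
    mul_le_mul_of_nonneg_right h7 (by positivity)
  have h9 : ∑ f ∈ D.divisors.filter (fun f => f ≠ 1),
      PS f (fun ψ => 8 * ‖∑ m ∈ Ioc Q t, (th κ Q m : ℂ) * ψ (m : ZMod f)‖ ^ 4) =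
      8 * ∑ f ∈ D.divisors.filter (fun f => f ≠ 1), P4 κ Q t f := by
    rw [mul_sum]
    refine sum_congr rfl fun f _ => ?_
    unfold P4
    rw [PS_mul]
  rw [h9] at h1
  linarith

theorem P4_small {Q t f : ℕ} (hf : 1 ≤ f) {b : ℝ}
    (h : ∀ χ : DirichletCharacter ℂ f, χ.IsPrimitive →
      ‖∑ m ∈ Ioc Q t, (th κ Q m : ℂ) * χ (m : ZMod f)‖ ≤ b) :
    1 / (Nat.totient f : ℝ) * P4 κ Q t f ≤ b ^ 4 := by
  classical
  have : NeZero f := ⟨by omega⟩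
  have ht : (0 : ℝ) < Nat.totient f := by exact_mod_cast Nat.totient_pos.2 (by omega)
  have h1 : P4 κ Q t f ≤ ∑ ψ ∈ (univ : Finset (DirichletCharacter ℂ f)).filter
      (fun χ => χ.IsPrimitive), b ^ 4 := by
    unfold P4 PS
    have h2 : ∀ ψ ∈ (univ : Finset (DirichletCharacter ℂ f)).filter (fun χ => χ.IsPrimitive),
        ‖∑ m ∈ Ioc Q t, (th κ Q m : ℂ) * ψ (m : ZMod f)‖ ^ 4 ≤ b ^ 4 := by
      intro ψ hψ
      rw [mem_filter] at hψ
      exact pow_le_pow_left₀ (norm_nonneg _) (h ψ hψ.2) 4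
    refine le_trans (le_of_eq ?_) (sum_le_sum h2)
    refine sum_congr ?_ fun _ _ => rfl
    ext; simp
  rw [sum_const, nsmul_eq_mul] at h1
  have h3 := Pool.Agent.W333.EC.card_char f ((univ : Finset (DirichletCharacter ℂ f)).filter
    (fun χ => χ.IsPrimitive))
  have hb : 0 ≤ b ^ 4 := by positivity
  rw [one_div, inv_mul_le_iff₀ ht]
  exact h1.trans (mul_le_mul_of_nonneg_right h3 hb)

/-- the fourth moment -/
theorem W_bound (h2 : S_LS4 κ) (C₀ A : ℕ) : ∃ C : ℝ, 0 ≤ C ∧ ∃ Q₀ : ℕ, ∀ Q : ℕ,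
    Q₀ ≤ Q → ∀ t : ℕ, Q ≤ t → t ≤ 2 * Q →
    ∑ D ∈ Icc 1 (C₀ * Q), 1 / (Nat.totient D : ℝ) * a4 κ Q t D ≤ C * (Q : ℝ) ^ 4 / Real.log Q ^ A := by
  classical
  obtain ⟨B, C2, Q2, hLS⟩ := h2 C₀ (A + 1)
  obtain ⟨C1, Q1, hSW⟩ := part1u κ (A + 1 + B) B
  obtain ⟨C3, hC3, hinv⟩ := Pool.Agent.W333.EC.sum_inv_tot
  obtain ⟨Q4, hQ4⟩ := Pool.Agent.W333.EC.log_pow_le (A + 4) (128 * C₀)
  refine ⟨8 * (|C1| ^ 4 + |C2|) * (C3 * (2 + C₀)) + 1, by positivity,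
    max (max Q1 Q2) (max Q4 (C₀ + 3)), fun Q hQ t ht1 ht2 => ?_⟩
  have hQ1 : Q1 ≤ Q := by omega
  have hQ2 : Q2 ≤ Q := by omega
  have hQ4' : Q4 ≤ Q := by omega
  have hQC : C₀ ≤ Q := by omega
  have hQ3 : 3 ≤ Q := by omega
  have hQpos : (0 : ℝ) < Q := by exact_mod_cast (by omega : 0 < Q)
  have hQr : (3 : ℝ) ≤ Q := by exact_mod_cast hQ3
  set l := Real.log Q with hl
  have hl1 : 1 ≤ l := by
    have h1 : Real.log (Real.exp 1) ≤ Real.log Q := by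
      apply Real.log_le_log (Real.exp_pos _)
      have := Real.exp_one_lt_d9
      linarith
    rwa [Real.log_exp] at h1
  have hl0 : 0 < l := by linarith
  have hlN : ∀ k : ℕ, 1 ≤ l ^ k := fun k => one_le_pow₀ hl1
  have hlP : ∀ k : ℕ, 0 < l ^ k := fun k => by positivity
  set L := Real.log (2 * Q) with hL
  have hL0 : 0 ≤ L := Real.log_nonneg (by linarith)
  have hL2 : L ≤ 2 * l := by
    rw [hL, Real.log_mul (by norm_num) hQpos.ne']
    have h3 : Real.log 2 ≤ Real.log Q := Real.log_le_log (by norm_num) (by linarith)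
    linarith
  rcases Nat.eq_zero_or_pos C₀ with h0 | h0
  · subst h0
    simp only [Nat.zero_mul]
    rw [Icc_eq_empty (by norm_num), sum_empty]
    positivity
  set N := C₀ * Q with hN
  have hN1 : 1 ≤ N := Nat.mul_pos h0 (by omega)
  -- reduction to primitive characters
  have e1 : ∑ D ∈ Icc 1 N, 1 / (Nat.totient D : ℝ) * a4 κ Q t D ≤
      8 * (∑ D ∈ Icc 1 N, 1 / (Nat.totient D : ℝ) *
        ∑ f ∈ D.divisors.filter (fun f => f ≠ 1), P4 κ Q t f) + 8 * L ^ 4 * N := by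
    rw [mul_sum]
    have e2 : (8 * L ^ 4 * N : ℝ) = ∑ D ∈ Icc 1 N, 8 * L ^ 4 := by
      rw [sum_const, Nat.card_Icc, nsmul_eq_mul]
      push_cast [Nat.add_sub_cancel]
      ring
    rw [e2, ← sum_add_distrib]
    refine sum_le_sum fun D hD => ?_
    rw [mem_Icc] at hD
    have htD : (0 : ℝ) < Nat.totient D := by exact_mod_cast Nat.totient_pos.2 (by omega)
    have h3 := a4_le (κ := κ) (by omega : 1 ≤ Q) hQC hD.1 hD.2 t
    have h4 : 1 / (Nat.totient D : ℝ) * a4 κ Q t D ≤ 1 / (Nat.totient D : ℝ) *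
      (8 * ∑ f ∈ D.divisors.filter (fun f => f ≠ 1), P4 κ Q t f +
      8 * L ^ 4 * Nat.totient D) := mul_le_mul_of_nonneg_left h3 (by positivity)
    refine h4.trans (le_of_eq ?_)
    field_simp
  have e3 := swap_sum N (P4 κ Q t) (P4_nonneg κ Q t)
  -- the two ranges
  have e4 : ∑ f ∈ (Icc 1 N).filter (fun f => f ≠ 1), 1 / (Nat.totient f : ℝ) * P4 κ Q t f ≤
      (|C1| ^ 4 + |C2|) * ((Q : ℝ) ^ 4 / l ^ (A + 1)) := by
    have hnn : ∀ f : ℕ, 0 ≤ 1 / (Nat.totient f : ℝ) * P4 κ Q t f := fun f =>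
      mul_nonneg (by positivity) (P4_nonneg κ Q t f)
    have s1 : ∑ f ∈ (Icc 1 N).filter (fun f => f ≠ 1), 1 / (Nat.totient f : ℝ) * P4 κ Q t f ≤
        ∑ f ∈ (Icc 1 N).filter (fun f : ℕ => f ≠ 1 ∧ (f : ℝ) ≤ l ^ B),
          1 / (Nat.totient f : ℝ) * P4 κ Q t f +
        ∑ f ∈ (Icc 1 N).filter (fun f : ℕ => l ^ B < (f : ℝ)), 1 / (Nat.totient f : ℝ) * P4 κ Q t f := by
      rw [← sum_filter_add_sum_filter_not ((Icc 1 N).filter (fun f => f ≠ 1))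
        (fun f : ℕ => (f : ℝ) ≤ l ^ B)]
      apply add_le_add
      · rw [filter_filter]
      · apply sum_le_sum_of_subset_of_nonneg
        · intro f hf
          rw [mem_filter, mem_filter, not_le] at hf
          rw [mem_filter]
          exact ⟨hf.1.1, hf.2⟩
        · intro f _ _; exact hnn f
    have s2 : ∑ f ∈ (Icc 1 N).filter (fun f : ℕ => f ≠ 1 ∧ (f : ℝ) ≤ l ^ B),
          1 / (Nat.totient f : ℝ) * P4 κ Q t f ≤ |C1| ^ 4 * ((Q : ℝ) ^ 4 / l ^ (A + 1)) := by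
      set b : ℝ := |C1| * Q / l ^ (A + 1 + B) with hb
      have hb0 : 0 ≤ b := by positivity
      have s3 : ∑ f ∈ (Icc 1 N).filter (fun f : ℕ => f ≠ 1 ∧ (f : ℝ) ≤ l ^ B),
          1 / (Nat.totient f : ℝ) * P4 κ Q t f ≤
          ∑ f ∈ (Icc 1 N).filter (fun f : ℕ => f ≠ 1 ∧ (f : ℝ) ≤ l ^ B), b ^ 4 := by
        refine sum_le_sum fun f hf => ?_
        rw [mem_filter, mem_Icc] at hf
        apply P4_small hf.1.1
        intro χ hχ
        have h3 := hSW Q hQ1 t ht1 ht2 f (by omega) hf.2.2 χ hχ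
        refine h3.trans ?_
        rw [hb]
        apply div_le_div_of_nonneg_right _ (hlP _).le
        exact mul_le_mul_of_nonneg_right (le_abs_self C1) hQpos.le
      rw [sum_const, nsmul_eq_mul] at s3
      have s4 : ((((Icc 1 N).filter (fun f : ℕ => f ≠ 1 ∧ (f : ℝ) ≤ l ^ B)).card : ℕ) : ℝ) ≤
          l ^ B := by
        have s5 : (Icc 1 N).filter (fun f : ℕ => f ≠ 1 ∧ (f : ℝ) ≤ l ^ B) ⊆
            Icc 1 ⌊l ^ B⌋₊ := by
          intro f hf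
          rw [mem_filter, mem_Icc] at hf
          rw [mem_Icc]
          exact ⟨hf.1.1, Nat.le_floor hf.2.2⟩
        have s6 := card_le_card s5
        rw [Nat.card_Icc, Nat.add_sub_cancel] at s6
        calc ((((Icc 1 N).filter (fun f : ℕ => f ≠ 1 ∧ (f : ℝ) ≤ l ^ B)).card : ℕ) : ℝ) ≤
            (⌊l ^ B⌋₊ : ℝ) := by exact_mod_cast s6
          _ ≤ l ^ B := Nat.floor_le (hlP B).le
      refine s3.trans ((mul_le_mul_of_nonneg_right s4 (by positivity)).trans ?_)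
      have s7 : l ^ B * b ^ 4 = |C1| ^ 4 * (Q : ℝ) ^ 4 * (l ^ B / (l ^ (A + 1 + B)) ^ 4) := by
        rw [hb, div_pow, mul_pow]; ring
      have s8 : l ^ B / (l ^ (A + 1 + B)) ^ 4 ≤ 1 / l ^ (A + 1) := by
        rw [div_le_div_iff₀ (by positivity) (by positivity), one_mul, ← pow_add, ← pow_mul]
        exact pow_le_pow_right₀ hl1 (by omega)
      rw [s7]
      calc |C1| ^ 4 * (Q : ℝ) ^ 4 * (l ^ B / (l ^ (A + 1 + B)) ^ 4) ≤
          |C1| ^ 4 * (Q : ℝ) ^ 4 * (1 / l ^ (A + 1)) :=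
            mul_le_mul_of_nonneg_left s8 (by positivity)
        _ = _ := by ring
    have s9 : ∑ f ∈ (Icc 1 N).filter (fun f : ℕ => l ^ B < (f : ℝ)),
        1 / (Nat.totient f : ℝ) * P4 κ Q t f ≤ |C2| * ((Q : ℝ) ^ 4 / l ^ (A + 1)) := by
      have h3 := hLS Q hQ2 t ht1 ht2
      have h4 : C2 * (Q : ℝ) ^ 4 / l ^ (A + 1) ≤ |C2| * ((Q : ℝ) ^ 4 / l ^ (A + 1)) := by
        rw [mul_div_assoc]
        exact mul_le_mul_of_nonneg_right (le_abs_self C2) (by positivity)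
      refine le_trans ?_ (h3.trans h4)
      refine sum_le_sum fun f _ => ?_
      apply mul_le_mul_of_nonneg_left _ (by positivity)
      unfold P4 PS
      apply sum_le_sum_of_subset_of_nonneg
      · intro ψ hψ
        rw [mem_filter] at hψ ⊢
        exact hψ
      · intro ψ _ _; positivity
    rw [add_mul]
    linarith
  have e5 := hinv N hN1
  have e6 : C3 * (1 + Real.log N) ≤ C3 * (2 + C₀) * l := by
    rw [mul_assoc]
    apply mul_le_mul_of_nonneg_left _ hC3.le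
    have hC0r : (1 : ℝ) ≤ C₀ := by exact_mod_cast h0
    rw [hN]
    push_cast
    rw [Real.log_mul (by positivity) (by positivity)]
    have h3 : Real.log C₀ ≤ C₀ := (Real.log_le_sub_one_of_pos (by linarith)).trans (by linarith)
    nlinarith
  have e7 : (∑ f ∈ (Icc 1 N).filter (fun f => f ≠ 1), 1 / (Nat.totient f : ℝ) * P4 κ Q t f) *
      ∑ g ∈ Icc 1 N, 1 / (Nat.totient g : ℝ) ≤
      ((|C1| ^ 4 + |C2|) * ((Q : ℝ) ^ 4 / l ^ (A + 1))) * (C3 * (2 + C₀) * l) := by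
    apply mul_le_mul e4 (e5.trans e6) (sum_nonneg fun _ _ => by positivity) (by positivity)
  have e8 : ((|C1| ^ 4 + |C2|) * ((Q : ℝ) ^ 4 / l ^ (A + 1))) * (C3 * (2 + C₀) * l) =
      (|C1| ^ 4 + |C2|) * (C3 * (2 + C₀)) * ((Q : ℝ) ^ 4 / l ^ A) := by
    rw [show l ^ (A + 1) = l ^ A * l from pow_succ l A]
    have := (hlP A).ne'
    field_simp
  have e9 : 8 * L ^ 4 * N ≤ (Q : ℝ) ^ 4 / l ^ A := by
    rw [le_div_iff₀ (hlP A)]
    have h3 := hQ4 Q hQ4'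
    rw [← hl] at h3
    have h4 : L ^ 4 ≤ (2 * l) ^ 4 := pow_le_pow_left₀ hL0 hL2 4
    have h5 : (N : ℝ) = C₀ * Q := by rw [hN]; push_cast; ring
    calc 8 * L ^ 4 * N * l ^ A ≤ 8 * (2 * l) ^ 4 * N * l ^ A := by gcongr
      _ = (128 * C₀ * l ^ (A + 4)) * Q := by rw [h5, pow_add]; ring
      _ ≤ Q * Q := mul_le_mul_of_nonneg_right h3 hQpos.le
      _ ≤ (Q : ℝ) ^ 4 := by
        have : (1 : ℝ) ≤ (Q : ℝ) ^ 2 := one_le_pow₀ (by linarith)
        nlinarith [sq_nonneg (Q : ℝ), mul_pos hQpos hQpos]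
  have e10 : (8 * (|C1| ^ 4 + |C2|) * (C3 * (2 + C₀)) + 1) * (Q : ℝ) ^ 4 / l ^ A =
      8 * ((|C1| ^ 4 + |C2|) * (C3 * (2 + C₀)) * ((Q : ℝ) ^ 4 / l ^ A)) + (Q : ℝ) ^ 4 / l ^ A := by
    ring
  rw [e10, ← e8]
  linarith

/-- the contribution of the non-exceptional characters -/
noncomputable def Fo (κ : DirichletCharacter ℂ e) (Q t u D : ℕ) (x : ZMod D) : ℂ :=
  ∑ χ ∈ Oth D, χ x * (SS κ Q t χ * SS κ Q u χ⁻¹)

theorem norm_SS_inv (κ : DirichletCharacter ℂ e) (Q u : ℕ) {D : ℕ} [NeZero D] (χ : DirichletCharacter ℂ D) :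
    ‖SS κ Q u χ⁻¹‖ = ‖SS κ Q u χ‖ := by
  have h : SS κ Q u χ⁻¹ = (starRingEnd ℂ) (SS κ Q u χ) := by
    unfold SS
    rw [map_sum]
    refine sum_congr rfl fun m _ => ?_
    rw [map_mul, Complex.conj_ofReal]
    congr 1
    exact (MulChar.star_apply' χ _).symm
  rw [h, RCLike.norm_conj]

theorem Fo_sum (κ : DirichletCharacter ℂ e) (Q t u D : ℕ) [NeZero D] :
    ∑ c ∈ (range D).filter (fun c => Nat.Coprime c D), ‖Fo κ Q t u D (c : ZMod D)‖ ≤
    Nat.totient D * √((a4 κ Q t D + a4 κ Q u D) / 2) := by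
  have h1 := Real.sum_mul_le_sqrt_mul_sqrt ((range D).filter (fun c => Nat.Coprime c D))
    (fun _ => (1 : ℝ)) (fun c => ‖Fo κ Q t u D (c : ZMod D)‖)
  simp only [one_mul, one_pow, sum_const, nsmul_eq_mul, mul_one] at h1
  rw [Pool.Agent.W333.EC.card_res] at h1
  refine h1.trans ?_
  have h2 : ∑ c ∈ (range D).filter (fun c => Nat.Coprime c D), ‖Fo κ Q t u D (c : ZMod D)‖ ^ 2 ≤
      (Nat.totient D : ℝ) * ((a4 κ Q t D + a4 κ Q u D) / 2) := by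
    refine (Pool.Agent.W333.EC.sum_cast_le D (fun x => ‖Fo κ Q t u D x‖ ^ 2) (fun x => by positivity)).trans ?_
    have h3 := Pool.Agent.W333.EC.parseval (Oth D) (fun χ => SS κ Q t χ * SS κ Q u χ⁻¹)
    have h4 : ∑ x : ZMod D, ‖Fo κ Q t u D x‖ ^ 2 =
        ∑ x : ZMod D, ‖∑ χ ∈ Oth D, χ x * (SS κ Q t χ * SS κ Q u χ⁻¹)‖ ^ 2 := rfl
    rw [h4, h3]
    apply mul_le_mul_of_nonneg_left _ (Nat.cast_nonneg _)
    unfold a4
    rw [← sum_add_distrib, sum_div]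
    refine sum_le_sum fun χ _ => ?_
    rw [norm_mul, norm_SS_inv, mul_pow]
    nlinarith [sq_nonneg (‖SS κ Q t χ‖ ^ 2 - ‖SS κ Q u χ‖ ^ 2)]
  calc √(Nat.totient D : ℝ) *
      √(∑ c ∈ (range D).filter (fun c => Nat.Coprime c D), ‖Fo κ Q t u D (c : ZMod D)‖ ^ 2) ≤
      √(Nat.totient D : ℝ) * √((Nat.totient D : ℝ) * ((a4 κ Q t D + a4 κ Q u D) / 2)) :=
        mul_le_mul_of_nonneg_left (Real.sqrt_le_sqrt h2) (Real.sqrt_nonneg _)
    _ = Nat.totient D * √((a4 κ Q t D + a4 κ Q u D) / 2) := by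
        rw [Real.sqrt_mul (Nat.cast_nonneg _), ← mul_assoc, Real.mul_self_sqrt (Nat.cast_nonneg _)]

/-- the error term for all primes -/
noncomputable def EE1 (χ : DirichletCharacter ℂ e) (Q D b x y : ℕ) : ℝ :=
  (∑ m₁ ∈ Ioc Q x, ∑ m₂ ∈ Ioc Q y, if m₂ ≡ b * m₁ [MOD D] then
    th χ Q (m₁ : ℤ) * th χ Q (m₂ : ℤ) else 0) -
    1 / (Nat.totient D : ℝ) * ((x : ℝ) - Q) * ((y : ℝ) - Q)

theorem EE_le {Q D C₀ c : ℕ} (hQ : 1 ≤ Q) (hC : C₀ ≤ Q) (hD : 1 ≤ D) (hDQ : D ≤ C₀ * Q)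
    (hc : c.Coprime D) (t u : ℕ) :
    |EE1 κ Q D c t u| ≤ Real.log (2 * Q) ^ 2 + 1 / (Nat.totient D : ℝ) *
      |TD κ Q t D * TD κ Q u D - ((t : ℝ) - Q) * ((u : ℝ) - Q)| +
      1 / (Nat.totient D : ℝ) * ‖Fo κ Q t u D (c : ZMod D)‖ := by
  have : NeZero D := ⟨by omega⟩
  have hφ : (0 : ℝ) < Nat.totient D := by exact_mod_cast Nat.totient_pos.2 (by omega)
  set P : ℝ := ∑ m₁ ∈ Ioc Q t, ∑ m₂ ∈ Ioc Q u, if m₁.Coprime D ∧ m₂ ≡ c * m₁ [MOD D] then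
      th κ Q (m₁ : ℤ) * th κ Q (m₂ : ℤ) else 0 with hP
  set R : ℝ := ∑ m₁ ∈ Ioc Q t, ∑ m₂ ∈ Ioc Q u, (if ¬ m₁.Coprime D ∧ m₂ ≡ c * m₁ [MOD D] then
      th κ Q (m₁ : ℤ) * th κ Q (m₂ : ℤ) else 0) with hR
  have h1 : (∑ m₁ ∈ Ioc Q t, ∑ m₂ ∈ Ioc Q u, if m₂ ≡ c * m₁ [MOD D] then
      th κ Q (m₁ : ℤ) * th κ Q (m₂ : ℤ) else 0) = P + R := by
    rw [hP, hR, ← sum_add_distrib]
    refine sum_congr rfl fun m₁ _ => ?_
    rw [← sum_add_distrib]
    refine sum_congr rfl fun m₂ _ => ?_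
    by_cases h1 : m₁.Coprime D <;> by_cases h2 : m₂ ≡ c * m₁ [MOD D] <;> simp [h1, h2]
  have hR0 : 0 ≤ R := by
    refine sum_nonneg fun m₁ _ => sum_nonneg fun m₂ _ => ?_
    split_ifs
    · exact mul_nonneg (th_nonneg κ Q m₁) (th_nonneg κ Q m₂)
    · exact le_rfl
  have hR1 : R ≤ Real.log (2 * Q) ^ 2 := bad_pairs κ hQ hC hD hDQ t u
  have h2 : (P : ℂ) = 1 / (Nat.totient D : ℂ) *
      (((TD κ Q t D * TD κ Q u D : ℝ) : ℂ) + Fo κ Q t u D (c : ZMod D)) := by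
    rw [hP, pairs_eq hc, sum_split, Ex_one hc]
    rfl
  have h3 : |P - 1 / (Nat.totient D : ℝ) * (TD κ Q t D * TD κ Q u D)| =
      1 / (Nat.totient D : ℝ) * ‖Fo κ Q t u D (c : ZMod D)‖ := by
    rw [← Real.norm_eq_abs, ← Complex.norm_real]
    have h4 : ((P - 1 / (Nat.totient D : ℝ) * (TD κ Q t D * TD κ Q u D) : ℝ) : ℂ) =
        1 / (Nat.totient D : ℂ) * Fo κ Q t u D (c : ZMod D) := by
      rw [Complex.ofReal_sub, h2]
      push_cast
      ring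
    rw [h4, norm_mul]
    congr 1
    rw [norm_div, norm_one, Complex.norm_natCast]
  have h5 : EE1 κ Q D c t u = R + (P - 1 / (Nat.totient D : ℝ) * (TD κ Q t D * TD κ Q u D)) +
      1 / (Nat.totient D : ℝ) *
        (TD κ Q t D * TD κ Q u D - ((t : ℝ) - Q) * ((u : ℝ) - Q)) := by
    unfold EE1
    rw [h1]
    field_simp
    ring
  have h6 : |1 / (Nat.totient D : ℝ) *
        (TD κ Q t D * TD κ Q u D - ((t : ℝ) - Q) * ((u : ℝ) - Q))| = 1 / (Nat.totient D : ℝ) *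
        |TD κ Q t D * TD κ Q u D - ((t : ℝ) - Q) * ((u : ℝ) - Q)| := by
    rw [abs_mul, abs_of_nonneg (by positivity : 0 ≤ 1 / (Nat.totient D : ℝ))]
  rw [h5]
  refine (abs_add_three _ _ _).trans ?_
  rw [h3, h6, abs_of_nonneg hR0]
  linarith

theorem main_le (κ : DirichletCharacter ℂ e) {Q D C₀ : ℕ} (hQ : 1 ≤ Q) (hC : C₀ ≤ Q) (hD : 1 ≤ D) (hDQ : D ≤ C₀ * Q)
    {t u : ℕ} (ht1 : Q ≤ t) (ht2 : t ≤ 2 * Q) (hu1 : Q ≤ u) (hu2 : u ≤ 2 * Q) {δ ε : ℝ}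
    (ht : |∑ m ∈ Ioc Q t, th κ Q (m : ℤ) - ((t : ℝ) - Q)| ≤ δ)
    (hu : |∑ m ∈ Ioc Q u, th κ Q (m : ℤ) - ((u : ℝ) - Q)| ≤ δ)
    (hε : δ + Real.log (2 * Q) ≤ ε) :
    |TD κ Q t D * TD κ Q u D - ((t : ℝ) - Q) * ((u : ℝ) - Q)| ≤ ε * (ε + 2 * Q) := by
  have ht' := TD_diff κ hQ hC hD hDQ t
  have hu' := TD_diff κ hQ hC hD hDQ u
  have ht1r : (Q : ℝ) ≤ t := by exact_mod_cast ht1
  have ht2r : (t : ℝ) ≤ 2 * Q := by exact_mod_cast ht2
  have hu1r : (Q : ℝ) ≤ u := by exact_mod_cast hu1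
  have hu2r : (u : ℝ) ≤ 2 * Q := by exact_mod_cast hu2
  have h1 : |TD κ Q t D - ((t : ℝ) - Q)| ≤ ε := by
    have := abs_sub_le (TD κ Q t D) (∑ m ∈ Ioc Q t, th κ Q (m : ℤ)) ((t : ℝ) - Q)
    linarith
  have h2 : |TD κ Q u D - ((u : ℝ) - Q)| ≤ ε := by
    have := abs_sub_le (TD κ Q u D) (∑ m ∈ Ioc Q u, th κ Q (m : ℤ)) ((u : ℝ) - Q)
    linarith
  have hε0 : 0 ≤ ε := (abs_nonneg _).trans h1
  have h3 : TD κ Q t D * TD κ Q u D - ((t : ℝ) - Q) * ((u : ℝ) - Q) =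
      (TD κ Q t D - ((t : ℝ) - Q)) * (TD κ Q u D - ((u : ℝ) - Q)) +
      (TD κ Q t D - ((t : ℝ) - Q)) * ((u : ℝ) - Q) +
      ((t : ℝ) - Q) * (TD κ Q u D - ((u : ℝ) - Q)) := by ring
  have h4 : |(TD κ Q t D - ((t : ℝ) - Q)) * (TD κ Q u D - ((u : ℝ) - Q))| ≤ ε * ε := by
    rw [abs_mul]
    exact mul_le_mul h1 h2 (abs_nonneg _) hε0
  have h5 : |(TD κ Q t D - ((t : ℝ) - Q)) * ((u : ℝ) - Q)| ≤ ε * Q := by
    rw [abs_mul]
    apply mul_le_mul h1 _ (abs_nonneg _) hε0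
    rw [abs_of_nonneg (by linarith)]
    linarith
  have h6 : |((t : ℝ) - Q) * (TD κ Q u D - ((u : ℝ) - Q))| ≤ Q * ε := by
    rw [abs_mul]
    apply mul_le_mul _ h2 (abs_nonneg _) (by positivity)
    rw [abs_of_nonneg (by linarith)]
    linarith
  rw [h3]
  refine (abs_add_three _ _ _).trans ?_
  nlinarith

/-- pairs of primes in residue classes, on average -/
theorem lsv (κ : DirichletCharacter ℂ e) (C₀ A : ℕ) : ∃ C : ℝ, ∃ Q₀ : ℕ, ∀ Q : ℕ, Q₀ ≤ Q →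
    ∀ x y : ℕ, Q ≤ x → x ≤ 2 * Q → Q ≤ y → y ≤ 2 * Q →
    ∑ D ∈ Icc 1 (C₀ * Q), ∑ b ∈ (range D).filter (fun b => Nat.Coprime b D),
      |EE1 κ Q D b x y| ≤ C * (Q : ℝ) ^ 3 / Real.log Q ^ A := by
  obtain ⟨C, hC0, Q1, hW⟩ := W_bound (κ := κ) (Pool.Agent.N912.ED.W150EG.ls4 κ) C₀ (2 * A)
  obtain ⟨C4, Q2, hP⟩ := part2 κ A
  obtain ⟨Q3, hQ3⟩ := Pool.Agent.W333.EC.log_pow_le (A + 2) (4 * C₀ ^ 2)
  obtain ⟨Q4, hQ4⟩ := Pool.Agent.W333.EC.log_pow_le (A + 1) 2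
  refine ⟨1 + C₀ * ((|C4| + 1) * (|C4| + 3)) + C₀ * √C,
    max (max Q1 Q2) (max (max Q3 Q4) (C₀ + 3)), fun Q hQ t u ht1 ht2 hu1 hu2 => ?_⟩
  have hQQ1 : Q1 ≤ Q := by omega
  have hQQ2 : Q2 ≤ Q := by omega
  have hQQ3 : Q3 ≤ Q := by omega
  have hQQ4 : Q4 ≤ Q := by omega
  have hQC : C₀ ≤ Q := by omega
  have hQn : 3 ≤ Q := by omega
  have hQ1 : 1 ≤ Q := by omega
  have hQpos : (0 : ℝ) < Q := by exact_mod_cast (by omega : 0 < Q)
  have hQr : (3 : ℝ) ≤ Q := by exact_mod_cast hQn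
  set l := Real.log Q with hl
  have hl1 : 1 ≤ l := by
    have h1 : Real.log (Real.exp 1) ≤ Real.log Q := by
      apply Real.log_le_log (Real.exp_pos _)
      have := Real.exp_one_lt_d9
      linarith
    rwa [Real.log_exp] at h1
  have hl0 : 0 < l := by linarith
  have hlP : ∀ k : ℕ, 0 < l ^ k := fun k => by positivity
  set L := Real.log (2 * Q) with hL
  have hL0 : 0 ≤ L := Real.log_nonneg (by linarith)
  have hL2 : L ≤ 2 * l := by
    rw [hL, Real.log_mul (by norm_num) hQpos.ne']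
    have h3 : Real.log 2 ≤ Real.log Q := Real.log_le_log (by norm_num) (by linarith)
    linarith
  set N := C₀ * Q with hN
  have hNr : (N : ℝ) = C₀ * Q := by rw [hN]; push_cast; ring
  set ε : ℝ := (|C4| + 1) * (Q / l ^ A) with hε
  have hε1 : |C4| * (Q / l ^ A) + L ≤ ε := by
    have h3 := hQ4 Q hQQ4
    rw [← hl] at h3
    have h4 : L ≤ Q / l ^ A := by
      rw [le_div_iff₀ (hlP A)]
      calc L * l ^ A ≤ 2 * l * l ^ A := mul_le_mul_of_nonneg_right hL2 (hlP A).le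
        _ = 2 * l ^ (A + 1) := by rw [pow_succ]; ring
        _ ≤ Q := h3
    rw [hε, add_mul, one_mul]
    linarith
  have hε2 : ε + 2 * Q ≤ (|C4| + 3) * Q := by
    have h3 : (Q : ℝ) / l ^ A ≤ Q := div_le_self hQpos.le (one_le_pow₀ hl1)
    have h4 : ε ≤ (|C4| + 1) * Q := mul_le_mul_of_nonneg_left h3 (by positivity)
    linarith
  have hP' : ∀ s : ℕ, Q ≤ s → s ≤ 2 * Q →
      |∑ m ∈ Ioc Q s, th κ Q (m : ℤ) - ((s : ℝ) - Q)| ≤ |C4| * (Q / l ^ A) := by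
    intro s hs1 hs2
    have h3 := hP Q hQQ2 s hs1 hs2
    refine h3.trans ?_
    rw [mul_div_assoc]
    exact mul_le_mul_of_nonneg_right (le_abs_self C4) (by positivity)
  set M : ℝ := ε * (ε + 2 * Q) with hM
  have hε0 : 0 ≤ ε := by positivity
  have hM0 : 0 ≤ M := by positivity
  have hM1 : M ≤ (|C4| + 1) * (|C4| + 3) * (Q ^ 2 / l ^ A) := by
    calc M ≤ ε * ((|C4| + 3) * Q) := mul_le_mul_of_nonneg_left hε2 hε0
      _ = _ := by rw [hε]; ring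
  -- one modulus
  have h3 : ∀ D ∈ Icc 1 N, ∑ c ∈ (range D).filter (fun c => Nat.Coprime c D), |EE1 κ Q D c t u| ≤
      N * L ^ 2 + M + √((a4 κ Q t D + a4 κ Q u D) / 2) := by
    intro D hD
    rw [mem_Icc] at hD
    have : NeZero D := ⟨by omega⟩
    have hφ : (0 : ℝ) < Nat.totient D := by exact_mod_cast Nat.totient_pos.2 (by omega)
    have hm := main_le κ hQ1 hQC hD.1 hD.2 ht1 ht2 hu1 hu2 (hP' t ht1 ht2) (hP' u hu1 hu2) hε1
    have h4 : ∀ c ∈ (range D).filter (fun c => Nat.Coprime c D), |EE1 κ Q D c t u| ≤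
        (L ^ 2 + 1 / (Nat.totient D : ℝ) * M) +
          1 / (Nat.totient D : ℝ) * ‖Fo κ Q t u D (c : ZMod D)‖ := by
      intro c hc
      rw [mem_filter] at hc
      have h5 := EE_le (κ := κ) hQ1 hQC hD.1 hD.2 hc.2 t u
      have h6 : 1 / (Nat.totient D : ℝ) *
        |TD κ Q t D * TD κ Q u D - ((t : ℝ) - Q) * ((u : ℝ) - Q)| ≤
        1 / (Nat.totient D : ℝ) * M := mul_le_mul_of_nonneg_left hm (by positivity)
      linarith
    refine (sum_le_sum h4).trans ?_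
    rw [sum_add_distrib, sum_const, Pool.Agent.W333.EC.card_res, nsmul_eq_mul, ← mul_sum]
    have h7 : (Nat.totient D : ℝ) ≤ N := by
      exact_mod_cast (Nat.totient_le D).trans hD.2
    have h8 : (Nat.totient D : ℝ) * L ^ 2 ≤ N * L ^ 2 :=
      mul_le_mul_of_nonneg_right h7 (by positivity)
    have h9 : (Nat.totient D : ℝ) * (L ^ 2 + 1 / (Nat.totient D : ℝ) * M) =
        Nat.totient D * L ^ 2 + M := by field_simp
    have h10 : 1 / (Nat.totient D : ℝ) *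
        ∑ c ∈ (range D).filter (fun c => Nat.Coprime c D), ‖Fo κ Q t u D (c : ZMod D)‖ ≤
        √((a4 κ Q t D + a4 κ Q u D) / 2) := by
      rw [one_div, inv_mul_le_iff₀ hφ]
      exact Fo_sum κ Q t u D
    rw [h9]
    linarith
  refine (sum_le_sum h3).trans ?_
  rw [sum_add_distrib, sum_const, Nat.card_Icc, Nat.add_sub_cancel, nsmul_eq_mul]
  have h4 : ∑ D ∈ Icc 1 N, √((a4 κ Q t D + a4 κ Q u D) / 2) ≤ N * (√C * (Q ^ 2 / l ^ A)) := by
    have h5 := Real.sum_mul_le_sqrt_mul_sqrt (Icc 1 N) (fun D => √(Nat.totient D : ℝ))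
      (fun D => √(1 / (Nat.totient D : ℝ) * ((a4 κ Q t D + a4 κ Q u D) / 2)))
    have h6 : ∑ D ∈ Icc 1 N, √((a4 κ Q t D + a4 κ Q u D) / 2) =
        ∑ D ∈ Icc 1 N, √(Nat.totient D : ℝ) *
          √(1 / (Nat.totient D : ℝ) * ((a4 κ Q t D + a4 κ Q u D) / 2)) := by
      refine sum_congr rfl fun D hD => ?_
      rw [mem_Icc] at hD
      have hφ : (0 : ℝ) < Nat.totient D := by exact_mod_cast Nat.totient_pos.2 (by omega)
      rw [← Real.sqrt_mul hφ.le]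
      congr 1
      field_simp
    rw [h6]
    refine h5.trans ?_
    have h7 : √(∑ D ∈ Icc 1 N, √(Nat.totient D : ℝ) ^ 2) ≤ N := by
      rw [Real.sqrt_le_left (Nat.cast_nonneg N)]
      calc ∑ D ∈ Icc 1 N, √(Nat.totient D : ℝ) ^ 2 ≤ ∑ _D ∈ Icc 1 N, (N : ℝ) := by
            refine sum_le_sum fun D hD => ?_
            rw [mem_Icc] at hD
            rw [Real.sq_sqrt (Nat.cast_nonneg _)]
            exact_mod_cast (Nat.totient_le D).trans hD.2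
        _ = (N : ℝ) ^ 2 := by
            rw [sum_const, Nat.card_Icc, Nat.add_sub_cancel, nsmul_eq_mul, sq]
    have h8 : √(∑ D ∈ Icc 1 N, √(1 / (Nat.totient D : ℝ) * ((a4 κ Q t D + a4 κ Q u D) / 2)) ^ 2) ≤
        √C * (Q ^ 2 / l ^ A) := by
      rw [Real.sqrt_le_left (by positivity)]
      have h9 : ∑ D ∈ Icc 1 N, √(1 / (Nat.totient D : ℝ) * ((a4 κ Q t D + a4 κ Q u D) / 2)) ^ 2 =
          (∑ D ∈ Icc 1 N, 1 / (Nat.totient D : ℝ) * a4 κ Q t D +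
            ∑ D ∈ Icc 1 N, 1 / (Nat.totient D : ℝ) * a4 κ Q u D) / 2 := by
        rw [← sum_add_distrib, sum_div]
        refine sum_congr rfl fun D _ => ?_
        rw [Real.sq_sqrt]
        · ring
        · have := a4_nonneg κ Q t D
          have := a4_nonneg κ Q u D
          positivity
      rw [h9, mul_pow, Real.sq_sqrt hC0, div_pow, ← pow_mul, ← pow_mul]
      have h10 := hW Q hQQ1 t ht1 ht2
      have h11 := hW Q hQQ1 u hu1 hu2
      rw [mul_comm A 2]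
      norm_num
      rw [mul_div_assoc] at h10 h11
      simp only [one_div] at h10 h11
      linarith
    exact mul_le_mul h7 h8 (Real.sqrt_nonneg _) (Nat.cast_nonneg N)
  have h5 : (N : ℝ) * (N * L ^ 2) ≤ (Q : ℝ) ^ 3 / l ^ A := by
    rw [le_div_iff₀ (hlP A)]
    have h6 := hQ3 Q hQQ3
    rw [← hl] at h6
    have h7 : L ^ 2 ≤ (2 * l) ^ 2 := pow_le_pow_left₀ hL0 hL2 2
    calc (N : ℝ) * (N * L ^ 2) * l ^ A ≤ N * (N * (2 * l) ^ 2) * l ^ A := by gcongr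
      _ = (4 * C₀ ^ 2 * l ^ (A + 2)) * Q ^ 2 := by rw [hNr, pow_add]; ring
      _ ≤ Q * Q ^ 2 := mul_le_mul_of_nonneg_right h6 (by positivity)
      _ = _ := by ring
  have h6 : (N : ℝ) * M ≤ C₀ * ((|C4| + 1) * (|C4| + 3)) * (Q ^ 3 / l ^ A) := by
    calc (N : ℝ) * M ≤ N * ((|C4| + 1) * (|C4| + 3) * (Q ^ 2 / l ^ A)) := by gcongr
      _ = _ := by rw [hNr]; ring
  have h7 : N * (√C * (Q ^ 2 / l ^ A)) = C₀ * √C * ((Q : ℝ) ^ 3 / l ^ A) := by
    rw [hNr]; ring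
  have h8 : (1 + C₀ * ((|C4| + 1) * (|C4| + 3)) + C₀ * √C) * (Q : ℝ) ^ 3 / l ^ A =
      (Q : ℝ) ^ 3 / l ^ A + C₀ * ((|C4| + 1) * (|C4| + 3)) * (Q ^ 3 / l ^ A) +
        C₀ * √C * ((Q : ℝ) ^ 3 / l ^ A) := by ring
  rw [h8, mul_add]
  linarith

end Pool.Agent.N296.EM
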