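import Pool.Agent.N296.EM.Gg
import Pool.Agent.N912.ED.N756ELSml
import Pool.Agent.N912.ED.W131EGJB

/-!
EM/2 SML: the pairs with small determinant, for all primes (port of `W131/EG/JB` and
`N756/EL/Sml`).
-/

set_option autoImplicit false

namespace Pool.Agent.N296.EM

open Finset Filter
open Pool.Agent.W78.GA
open Pool.Agent.W78.EC (psi)
open Pool.Agent.N912.ED.W78EG
open Pool.Agent.N912.ED.N912EL
open Pool.Agent.N912.ED.W179EG (hDf split3 small_partA ev_log cone_total Gv_symm Gv_nonneg dt_anti)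
open Pool.Agent.N912.ED.W372EG (exists_cst Cst weight_sum floor_mem toNat_cast mem_cw)
open Pool.Agent.W125.EC (avg_le)
open Pool.Agent.N912.ED.W131EG (nm_sub_le)
open Pool.Agent.W683.EC (psi_nonneg psi_le psi_eq_zero psi_lip card_diam)

section jb
variable {t c : ℤ}

/-- the bound for the main term -/
theorem jb1 (hDD : t ^ 2 < 4 * c) (s : ℝ) (hs : 0 < s) : ∃ C : ℝ,
    ∀ (Q : ℕ) (X : ℝ) (w₁ w₂ : Qd t c), 1 ≤ Q → 1 ≤ X →
    s * X < (nm w₁ : ℝ) → 0 < dt w₁ w₂ →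
    |G1 Q X w₁ w₂| ≤ C * Q * ((dt w₁ w₂ : ℝ) / (Nat.totient (dt w₁ w₂).toNat : ℝ)) := by
  refine ⟨16 * (4 / Real.sqrt s + 1), ?_⟩
  intro Q X w₁ w₂ hQ hX h1 hD
  have hX0 : 0 < X := by linarith
  have hsq : 0 < Real.sqrt s := Real.sqrt_pos.2 hs
  set D : ℝ := (dt w₁ w₂ : ℝ) with hDdef
  have hD1 : 1 ≤ D := by
    have : (1 : ℤ) ≤ dt w₁ w₂ := hD
    rw [hDdef]; exact_mod_cast this
  have hD0' : 0 < D := by linarith
  have hDX : 0 < D ^ 2 * X := by positivity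
  -- sum over m₂
  have hsum : ∀ m₁ ∈ Ioc Q (2 * Q), ∑ m₂ ∈ Ioc Q (2 * Q),
      psi (nm ((m₂ : Qd t c) * w₁ - (m₁ : Qd t c) * w₂) / (D ^ 2 * X)) ≤ 16 * (4 * D / Real.sqrt s + 1) := by
    intro m₁ _
    classical
    set S := (Ioc Q (2 * Q)).filter
      (fun m₂ : ℕ => (nm ((m₂ : Qd t c) * w₁ - (m₁ : Qd t c) * w₂) : ℝ) < 4 * (D ^ 2 * X)) with hS
    have e1 : ∑ m₂ ∈ Ioc Q (2 * Q), psi (nm ((m₂ : Qd t c) * w₁ - (m₁ : Qd t c) * w₂) / (D ^ 2 * X)) =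
        ∑ m₂ ∈ S, psi (nm ((m₂ : Qd t c) * w₁ - (m₁ : Qd t c) * w₂) / (D ^ 2 * X)) := by
      rw [hS, Finset.sum_filter]
      refine Finset.sum_congr rfl fun m₂ _ => ?_
      split_ifs with h
      · rfl
      · exact psi_eq_zero (by rw [le_div_iff₀ hDX]; exact not_lt.1 h)
    rw [e1]
    have e2 : ∑ m₂ ∈ S, psi (nm ((m₂ : Qd t c) * w₁ - (m₁ : Qd t c) * w₂) / (D ^ 2 * X)) ≤
        S.card * 16 := by
      calc _ ≤ ∑ _m ∈ S, (16 : ℝ) := Finset.sum_le_sum fun m₂ _ => psi_le (by positivity)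
        _ = _ := by rw [Finset.sum_const, nsmul_eq_mul]
    refine e2.trans ?_
    have e3 : (S.card : ℝ) ≤ 4 * D / Real.sqrt s + 1 := by
      refine card_diam S _ (by positivity) fun a ha b hb => ?_
      have ha' := (Finset.mem_filter.1 ha).2
      have hb' := (Finset.mem_filter.1 hb).2
      have h3 := nm_sub_le hDD ((b : Qd t c) * w₁ - (m₁ : Qd t c) * w₂) ((a : Qd t c) * w₁ - (m₁ : Qd t c) * w₂)
      have h4 : (nm ((b : Qd t c) * w₁ - (m₁ : Qd t c) * w₂ - ((a : Qd t c) * w₁ - (m₁ : Qd t c) * w₂)) : ℝ) =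
          ((b : ℝ) - a) ^ 2 * nm w₁ := by
        rw [nm_castR hDD, nm_castR hDD]
        simp only [QuadraticAlgebra.re_sub, QuadraticAlgebra.im_sub, QuadraticAlgebra.re_mul,
          QuadraticAlgebra.im_mul, QuadraticAlgebra.re_natCast, QuadraticAlgebra.im_natCast]
        push_cast
        ring
      rw [h4] at h3
      have h5 : ((b : ℝ) - a) ^ 2 * (s * X) ≤ 16 * (D ^ 2 * X) := by
        have := mul_le_mul_of_nonneg_left h1.le (sq_nonneg ((b : ℝ) - a))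
        linarith
      have h6 : ((b : ℝ) - a) ^ 2 * s ≤ 16 * D ^ 2 := by
        have h7 : (((b : ℝ) - a) ^ 2 * s) * X ≤ (16 * D ^ 2) * X := by linarith
        exact le_of_mul_le_mul_right h7 hX0
      rw [le_div_iff₀ hsq]
      refine le_of_sq_le_sq ?_ (by positivity) |>.trans le_rfl
      rw [mul_pow, Real.sq_sqrt hs.le]
      linarith
    linarith
  have htot : ∑ m₁ ∈ Ioc Q (2 * Q), ∑ m₂ ∈ Ioc Q (2 * Q),
      psi (nm ((m₂ : Qd t c) * w₁ - (m₁ : Qd t c) * w₂) / (D ^ 2 * X)) ≤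
      Q * (16 * (4 * D / Real.sqrt s + 1)) := by
    have hc : ((Ioc Q (2 * Q)).card : ℝ) = Q := by
      rw [Nat.card_Ioc]
      have : 2 * Q - Q = Q := by omega
      rw [this]
    calc _ ≤ ∑ _m₁ ∈ Ioc Q (2 * Q), (16 * (4 * D / Real.sqrt s + 1)) := Finset.sum_le_sum hsum
      _ = _ := by rw [Finset.sum_const, nsmul_eq_mul, hc]
  have htot0 : 0 ≤ ∑ m₁ ∈ Ioc Q (2 * Q), ∑ m₂ ∈ Ioc Q (2 * Q),
      psi (nm ((m₂ : Qd t c) * w₁ - (m₁ : Qd t c) * w₂) / (D ^ 2 * X)) :=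
    Finset.sum_nonneg fun _ _ => Finset.sum_nonneg fun _ _ => psi_nonneg _
  have hphi : (0 : ℝ) < (Nat.totient (dt w₁ w₂).toNat : ℝ) := by
    have : 0 < (dt w₁ w₂).toNat := by omega
    exact_mod_cast Nat.totient_pos.2 this
  unfold G1
  rw [abs_mul, abs_of_nonneg (by positivity : (0:ℝ) ≤ 1 / (Nat.totient (dt w₁ w₂).toNat : ℝ)),
    abs_of_nonneg htot0]
  calc 1 / (Nat.totient (dt w₁ w₂).toNat : ℝ) *
        (∑ m₁ ∈ Ioc Q (2 * Q), ∑ m₂ ∈ Ioc Q (2 * Q),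
          psi (nm ((m₂ : Qd t c) * w₁ - (m₁ : Qd t c) * w₂) / (D ^ 2 * X)))
      ≤ 1 / (Nat.totient (dt w₁ w₂).toNat : ℝ) *
        (Q * (16 * (4 * D / Real.sqrt s + 1))) := by
        exact mul_le_mul_of_nonneg_left htot (by positivity)
    _ ≤ 1 / (Nat.totient (dt w₁ w₂).toNat : ℝ) *
        (Q * (16 * ((4 / Real.sqrt s + 1) * D))) := by
        refine mul_le_mul_of_nonneg_left ?_ (by positivity)
        refine mul_le_mul_of_nonneg_left ?_ (by positivity)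
        have : 4 * D / Real.sqrt s = 4 / Real.sqrt s * D := by ring
        rw [this]
        nlinarith
    _ = 16 * (4 / Real.sqrt s + 1) * Q * (D / (Nat.totient (dt w₁ w₂).toNat : ℝ)) := by
        field_simp

end jb

open scoped Classical in
/-- the pairs with small determinant in the main term -/
lemma bound_G1 {t c : ℤ} {f : ℕ} {χ : DirichletCharacter ℂ f} [Fact (t ^ 2 < 4 * c)] {K : ℕ}
    {κ s₁ s₂ C C' Cφ δ : ℝ}
    (hC : Cst t c χ K κ s₁ s₂ C) (hφ : ∀ N : ℕ, ∑ D ∈ Icc 1 N, (D : ℝ) / Nat.totient D ≤ Cφ * N)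
    {Q : ℕ} {X R : ℝ} (hQ : 1 ≤ Q) (hX : f * (K * Q : ℝ) ≤ X) (hX1 : 1 ≤ X) (hR0 : 0 < R)
    (hδ : 0 < δ)
    (hC' : ∀ (Q : ℕ) (X : ℝ) (w₁ w₂ : Qd t c), 1 ≤ Q → 1 ≤ X →
      s₁ * X < (nm w₁ : ℝ) → 0 < dt w₁ w₂ →
      |G1 Q X w₁ w₂| ≤ C' * Q * ((dt w₁ w₂ : ℝ) / (Nat.totient (dt w₁ w₂).toNat : ℝ))) :
    ∑ e ∈ good t c K κ Q X, ∑ w ∈ cw X s₁ s₂ e.1 e.2, ∑ z ∈ cw X s₁ s₂ e.1 e.2,
      |if R ≤ (dt z w : ℝ) ∧ ¬ δ * Q ≤ (dt z w : ℝ) then (1 : ℝ) * 1 * G1 Q X z w else 0| ≤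
      (C ^ 3 * |C'| * Cφ * δ) * (X * (Q : ℝ) ^ 2) := by
  have hC1 := hC.one
  have hQ' : (1 : ℝ) ≤ Q := by exact_mod_cast hQ
  refine (weight_sum hC hQ hX hX1 (fun m => (|C'| * Q) * ((m : ℝ) / Nat.totient m))
    (fun m => by positivity) ⌊δ * Q⌋₊ _ ?_).trans ?_
  · intro e he w hw z hz
    by_cases h : R ≤ (dt z w : ℝ) ∧ ¬ δ * Q ≤ (dt z w : ℝ)
    · rw [if_pos h, one_mul, one_mul]
      have h0 : (0 : ℝ) < (dt z w : ℝ) := hR0.trans_le h.1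
      have h0' : 0 < dt z w := by exact_mod_cast h0
      rw [if_pos ⟨h0', floor_mem h0' (not_le.1 h.2).le⟩, toNat_cast h0']
      have h1 := hC' Q X z w hQ hX1 (mem_cw.1 hz).2.1 h0'
      refine h1.trans ?_
      apply mul_le_mul_of_nonneg_right _ (by positivity)
      exact mul_le_mul_of_nonneg_right (le_abs_self _) (by positivity)
    · rw [if_neg h, abs_zero]
      split_ifs
      · positivity
      · exact le_rfl
  · rw [← mul_sum]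
    have h1 := hφ ⌊δ * Q⌋₊
    have h2 : ((⌊δ * Q⌋₊ : ℕ) : ℝ) ≤ δ * Q := Nat.floor_le (by positivity)
    have hφ0 : 0 ≤ Cφ := by
      have h3 := hφ 1
      simp at h3
      linarith
    have h3 : ∑ D ∈ Icc 1 ⌊δ * Q⌋₊, (D : ℝ) / Nat.totient D ≤ Cφ * (δ * Q) :=
      h1.trans (mul_le_mul_of_nonneg_left h2 hφ0)
    calc C ^ 3 * X * (|C'| * Q * ∑ D ∈ Icc 1 ⌊δ * Q⌋₊, (D : ℝ) / Nat.totient D) ≤
        C ^ 3 * X * (|C'| * Q * (Cφ * (δ * Q))) := by gcongr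
      _ = _ := by ring

/-- **SML for all primes** -/
theorem sml {t c : ℤ} {f : ℕ} {χ : DirichletCharacter ℂ f} (hF : Fd t c f χ) : S_SML t c χ := by
  classical
  have hD := hDf hF
  have h2 : S_JB t c χ := Pool.Agent.N912.ED.W131EG.jb hF
  have h4 : S_LN t c := Pool.Agent.N912.ED.W804EG.ln hD
  have h5 : S_DTB t c f := Pool.Agent.N912.ED.W804EG.dtb hF
  have : Fact (t ^ 2 < 4 * c) := ⟨hD⟩
  intro K κ s₁ s₂ hK hκ hs₁ h12 hs₂
  obtain ⟨C, hC⟩ := exists_cst (s₂ := s₂) hF h2 h4 h5 hK hκ hs₁ hs₂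
  have hC1 := hC.one
  obtain ⟨C', hC'⟩ := jb1 hD s₁ hs₁
  obtain ⟨Cφ, hCφ, havg⟩ := avg_le
  obtain ⟨CL, hCL⟩ := h4 s₁ hs₁
  have hC0 : 0 < 2 * C + 2 * (C ^ 3 * |C'| * Cφ) + 1 := by positivity
  refine ⟨2 * C + 2 * (C ^ 3 * |C'| * Cφ) + 1, hC0, fun δ hδ hδ1 => ?_⟩
  set C₁ : ℝ := 64 * (1 / κ + 1) with hC₁
  have hC₁0 : 0 < C₁ := by positivity
  obtain ⟨Q₁, hQ₁⟩ := gg1 hF K κ s₁ δ hK hκ hs₁ hδ
  obtain ⟨Q₂, hQ₂⟩ := eventually_atTop.1 (ev_log (max (192 * C₁ * CL ^ 2 / δ) (1 + 1 / δ)))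
  refine ⟨max Q₁ Q₂, fun Q hQ X hX => ?_⟩
  have hQa : Q₁ ≤ Q := (le_max_left _ _).trans hQ
  have hQb : Q₂ ≤ Q := (le_max_right _ _).trans hQ
  obtain ⟨l1', l2, l3, l4⟩ := hQ₂ Q hQb
  have l1 := (le_max_left _ _).trans l1'
  have l0 := (le_max_right _ _).trans l1'
  have hQ1 : 1 ≤ Q := by omega
  have hQR : (1 : ℝ) ≤ Q := by exact_mod_cast hQ1
  have hKR : (1 : ℝ) ≤ K := by exact_mod_cast hK
  have hf3 : (3 : ℝ) ≤ f := by exact_mod_cast hF.three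
  have hKQ1 : (1 : ℝ) ≤ K * Q := one_le_mul_of_one_le_of_one_le hKR hQR
  have hX1 : 1 ≤ X := by nlinarith
  have hX0 : 0 < X := by linarith
  have hQ0 : (0 : ℝ) < Q := by linarith
  have hl0 : 0 < Real.log Q := by linarith
  set R : ℝ := (Q : ℝ) / Real.log Q ^ 3 with hR
  have hR1 : 1 ≤ R := by
    rw [hR, le_div_iff₀ (by positivity), one_mul]; exact l2
  have hR0 : 0 < R := by linarith
  have hthr : R ≤ δ * Q := by
    have hδi : 0 < 1 / δ := by positivity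
    have g2 : 1 / δ ≤ Real.log Q ^ 3 := by
      calc 1 / δ ≤ Real.log Q := by linarith
        _ = Real.log Q ^ 1 := (pow_one _).symm
        _ ≤ Real.log Q ^ 3 := pow_le_pow_right₀ l3 (by norm_num)
    rw [hR, div_le_iff₀ (by positivity)]
    rw [div_le_iff₀ hδ] at g2
    nlinarith [mul_le_mul_of_nonneg_right g2 hQ0.le]
  have hcone := cone_total hF h5 hK hκ hQ1 hX
  rw [← hC₁] at hcone
  -- the two functions
  set F : Qd t c → Qd t c → ℝ := fun a b => if |(dt a b : ℝ)| < δ * Q then Gv χ Q X a b else 0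
    with hFdef
  have hFs : ∀ a b, F a b = F b a := by
    intro a b
    simp only [hFdef]
    rw [dt_anti a b, Gv_symm]
    push_cast
    rw [abs_neg]
  set B : Qd t c × Qd t c → ℝ := fun e => ∑ w₁ ∈ cw X s₁ s₂ e.1 e.2, ∑ w₂ ∈ cw X s₁ s₂ e.1 e.2,
    (if R ≤ (dt w₁ w₂ : ℝ) then |Gv χ Q X w₁ w₂ - G1 Q X w₁ w₂| else 0) with hB
  set M : Qd t c × Qd t c → ℝ := fun e => ∑ w ∈ cw X s₁ s₂ e.1 e.2, ∑ z ∈ cw X s₁ s₂ e.1 e.2,
    |if R ≤ (dt z w : ℝ) ∧ ¬ δ * Q ≤ (dt z w : ℝ) then (1 : ℝ) * 1 * G1 Q X z w else 0| with hM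
  set Sm : Qd t c × Qd t c → ℝ := fun e => ∑ w₁ ∈ cw X s₁ s₂ e.1 e.2, ∑ w₂ ∈ cw X s₁ s₂ e.1 e.2,
    (if |(dt w₁ w₂ : ℝ)| < R then (1 : ℝ) * 1 * Gv χ Q X w₁ w₂ else 0) with hSm
  have e1 : ∀ e ∈ good t c K κ Q X,
      ∑ w₁ ∈ cw X s₁ s₂ e.1 e.2, ∑ w₂ ∈ cw X s₁ s₂ e.1 e.2, F w₁ w₂ ≤ 2 * (B e + M e) + Sm e := by
    intro e _
    rw [split3 _ R hR0 F hFs]
    have a1 : ∑ w₁ ∈ cw X s₁ s₂ e.1 e.2, ∑ w₂ ∈ cw X s₁ s₂ e.1 e.2,
        (if R ≤ (dt w₁ w₂ : ℝ) then F w₁ w₂ else 0) ≤ B e + M e := by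
      rw [hB, hM]
      simp only
      rw [sum_comm (f := fun w z => |if R ≤ (dt z w : ℝ) ∧ ¬ δ * Q ≤ (dt z w : ℝ) then
        (1 : ℝ) * 1 * G1 Q X z w else 0|)]
      simp only [← sum_add_distrib]
      refine sum_le_sum fun a _ => sum_le_sum fun b _ => ?_
      by_cases c1 : R ≤ (dt a b : ℝ)
      · rw [if_pos c1, if_pos c1]
        have p0 : (0 : ℝ) < (dt a b : ℝ) := hR0.trans_le c1
        simp only [hFdef]
        rw [abs_of_pos p0]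
        by_cases c2 : (dt a b : ℝ) < δ * Q
        · rw [if_pos c2, if_pos ⟨c1, not_le.2 c2⟩, one_mul, one_mul]
          have q1 := le_abs_self (Gv χ Q X a b - G1 Q X a b)
          have q2 := le_abs_self (G1 Q X a b)
          linarith
        · rw [if_neg c2]
          positivity
      · rw [if_neg c1, if_neg c1]
        positivity
    have a2 : ∑ w₁ ∈ cw X s₁ s₂ e.1 e.2, ∑ w₂ ∈ cw X s₁ s₂ e.1 e.2,
        (if |(dt w₁ w₂ : ℝ)| < R then F w₁ w₂ else 0) ≤ Sm e := by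
      rw [hSm]
      refine sum_le_sum fun a _ => sum_le_sum fun b _ => ?_
      by_cases c1 : |(dt a b : ℝ)| < R
      · rw [if_pos c1, if_pos c1, one_mul, one_mul]
        simp only [hFdef]
        split_ifs
        · exact le_rfl
        · exact Gv_nonneg _ _ _ _ _
      · rw [if_neg c1, if_neg c1]
    linarith
  -- the difference
  have e3 : ∀ e ∈ good t c K κ Q X, B e ≤ δ * (Q : ℝ) ^ 3 := by
    intro e he
    have g1 := hQ₁ Q hQa X hX e he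
    rw [← hR] at g1
    refine le_trans ?_ g1
    rw [hB]
    have hsub : cw X s₁ s₂ e.1 e.2 ⊆ cw X s₁ 1 e.1 e.2 := by
      intro z hz
      unfold cw at hz ⊢
      rw [mem_filter] at hz ⊢
      refine ⟨hz.1, hz.2.1, hz.2.2.trans ?_⟩
      exact mul_le_mul_of_nonneg_right hs₂ hX0.le
    have nn : ∀ a b : Qd t c,
        0 ≤ (if R ≤ (dt a b : ℝ) then |Gv χ Q X a b - G1 Q X a b| else 0) := by
      intro a b
      split_ifs
      · exact abs_nonneg _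
      · exact le_rfl
    refine le_trans (sum_le_sum fun a _ => ?_) (sum_le_sum_of_subset_of_nonneg hsub
      fun a _ _ => sum_nonneg fun b _ => nn a b)
    exact sum_le_sum_of_subset_of_nonneg hsub fun b _ _ => nn a b
  have e4 : ∑ e ∈ good t c K κ Q X, B e ≤ C * δ * X * (Q : ℝ) ^ 2 := by
    refine (sum_le_sum e3).trans ?_
    rw [sum_const, nsmul_eq_mul]
    refine (mul_le_mul_of_nonneg_right (hC.gcard Q X hQ1 hX) (by positivity)).trans (le_of_eq ?_)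
    field_simp
  -- the main term
  have e5 : ∑ e ∈ good t c K κ Q X, M e ≤ (C ^ 3 * |C'| * Cφ * δ) * (X * (Q : ℝ) ^ 2) :=
    bound_G1 hC havg hQ1 hX hX1 hR0 hδ hC'
  -- the small determinants
  have e6 : ∀ e ∈ good t c K κ Q X, Sm e ≤ ((cone X e.1 e.2).card : ℝ) *
      (48 * (CL : ℝ) ^ 2 * R * Q * Real.log (2 * Q) ^ 2) := by
    intro e _
    refine (le_abs_self _).trans ?_
    exact small_partA χ hD (A := fun _ => (1 : ℝ)) (fun _ => by simp) hX0 hQ1 hR1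
      (fun w m hw hn => hCL X w m hX1 hw hn) e.1 e.2
  have e8 : ∑ e ∈ good t c K κ Q X, Sm e ≤ δ * X * (Q : ℝ) ^ 2 := by
    refine (sum_le_sum e6).trans ?_
    rw [← sum_mul]
    have g0 : Real.log (2 * Q) ≤ 2 * Real.log Q := by
      rw [Real.log_mul (by norm_num) (by positivity)]
      have : Real.log 2 ≤ Real.log Q := by
        apply Real.log_le_log (by norm_num)
        have : (3 : ℝ) ≤ Q := by exact_mod_cast l4
        linarith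
      linarith
    have g00 : 0 ≤ Real.log (2 * Q) := Real.log_nonneg (by linarith)
    have g1 : Real.log (2 * Q) ^ 2 ≤ 4 * Real.log Q ^ 2 := by nlinarith
    have g2 : 48 * (CL : ℝ) ^ 2 * R * Q * Real.log (2 * Q) ^ 2 ≤
        48 * (CL : ℝ) ^ 2 * R * Q * (4 * Real.log Q ^ 2) :=
      mul_le_mul_of_nonneg_left g1 (by positivity)
    have g3 : 48 * (CL : ℝ) ^ 2 * R * Q * (4 * Real.log Q ^ 2) =
        192 * (CL : ℝ) ^ 2 * (Q : ℝ) ^ 2 / Real.log Q := by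
      rw [hR]
      field_simp
      ring
    calc (∑ e ∈ good t c K κ Q X, ((cone X e.1 e.2).card : ℝ)) *
          (48 * (CL : ℝ) ^ 2 * R * Q * Real.log (2 * Q) ^ 2)
        ≤ (C₁ * X) * (192 * (CL : ℝ) ^ 2 * (Q : ℝ) ^ 2 / Real.log Q) := by
          apply mul_le_mul hcone (g2.trans_eq g3) (by positivity) (by positivity)
      _ = (192 * C₁ * (CL : ℝ) ^ 2 / Real.log Q) * (X * (Q : ℝ) ^ 2) := by ring
      _ ≤ δ * (X * (Q : ℝ) ^ 2) := by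
          apply mul_le_mul_of_nonneg_right _ (by positivity)
          rw [div_le_iff₀ hl0]
          rw [div_le_iff₀ hδ] at l1
          linarith
      _ = _ := by ring
  have e9 : ∑ e ∈ good t c K κ Q X, ∑ w₁ ∈ cw X s₁ s₂ e.1 e.2, ∑ w₂ ∈ cw X s₁ s₂ e.1 e.2,
      F w₁ w₂ ≤ 2 * (∑ e ∈ good t c K κ Q X, B e + ∑ e ∈ good t c K κ Q X, M e) +
        ∑ e ∈ good t c K κ Q X, Sm e := by
    rw [← sum_add_distrib, mul_sum, ← sum_add_distrib]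
    exact sum_le_sum e1
  calc ∑ e ∈ good t c K κ Q X, ∑ w₁ ∈ cw X s₁ s₂ e.1 e.2, ∑ w₂ ∈ cw X s₁ s₂ e.1 e.2,
      (if |(dt w₁ w₂ : ℝ)| < δ * Q then Gv χ Q X w₁ w₂ else 0) ≤ _ := e9
    _ ≤ 2 * (C * δ * X * (Q : ℝ) ^ 2 + (C ^ 3 * |C'| * Cφ * δ) * (X * (Q : ℝ) ^ 2)) +
        δ * X * (Q : ℝ) ^ 2 := by linarith
    _ = (2 * C + 2 * (C ^ 3 * |C'| * Cφ) + 1) * δ * X * (Q : ℝ) ^ 2 := by ring

end Pool.Agent.N296.EM
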